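import Pool.Agent.Helper93_ABCT.StmtK
import Pool.Agent.Helper32_ABCT.Api2

/-! # KRES: the restriction of the coordinates to the facet (MP_a17fcb_ag) -/

open MvPolynomial ABCT

namespace PosGeom.H9

/-! ## positivity, transferred -/

theorem posF_iff {d : ℕ} (f : Fd d) : PosF f ↔ ABCT.PosF (V := Fin d) f := Iff.rfl

theorem pmul {d : ℕ} {f g : Fd d} (hf : PosF f) (hg : PosF g) : PosF (f * g) :=
  ABCT.PosF.mul (V := Fin d) hf hg

theorem pdiv {d : ℕ} {f g : Fd d} (hf : PosF f) (hg : PosF g) : PosF (f / g) :=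
  ABCT.PosF.div (V := Fin d) hf hg

theorem ppow {d : ℕ} {f : Fd d} (hf : PosF f) (n : ℕ) : PosF (f ^ n) :=
  ABCT.PosF.pow (V := Fin d) hf n

theorem pprod {d : ℕ} {ι : Type*} (s : Finset ι) (f : ι → Fd d) (h : ∀ i ∈ s, PosF (f i)) :
    PosF (∏ i ∈ s, f i) :=
  ABCT.PosF.prod (V := Fin d) s f h

theorem psum {d : ℕ} {ι : Type*} (s : Finset ι) (hs : s.Nonempty) (f : ι → Fd d)
    (h : ∀ i ∈ s, PosF (f i)) : PosF (∑ i ∈ s, f i) :=
  ABCT.PosF.sum (V := Fin d) s hs f h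

theorem pnat {d : ℕ} {n : ℕ} (h : n ≠ 0) : PosF (n : Fd d) :=
  ABCT.PosF.natCast (V := Fin d) h

theorem pne {d : ℕ} {f : Fd d} (hf : PosF f) : f ≠ 0 :=
  ABCT.PosF.ne_zero (V := Fin d) hf

theorem pyv {d : ℕ} (j : Fin d) : PosF (yv d j) :=
  ABCT.PosF.x (V := Fin d) j

theorem pev {d : ℕ} {p : MvPolynomial (Fin d) ℕ} (h : p ≠ 0) : PosF (evN (yv d) p) :=
  ABCT.PosF.evN (V := Fin d) h

theorem yv_ne {d : ℕ} (j : Fin d) : yv d j ≠ 0 := pne (pyv j)

/-! ## small facts -/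

theorem prod_zpow_sum {K α : Type*} [Field K] (s : Finset α) (a : K) (ha : a ≠ 0) (n : α → ℤ) :
    ∏ k ∈ s, a ^ n k = a ^ ∑ k ∈ s, n k := by
  classical
  induction s using Finset.induction_on with
  | empty => simp
  | insert k s hk ih => rw [Finset.prod_insert hk, Finset.sum_insert hk, zpow_add₀ ha, ih]

theorem prod_zpow' {K α : Type*} [Field K] (s : Finset α) (f : α → K) (n : ℤ) :
    (∏ k ∈ s, f k) ^ n = ∏ k ∈ s, f k ^ n :=
  (Finset.prod_zpow f s n).symm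

theorem evN_map {σ R R' : Type} [CommSemiring R] [CommSemiring R'] (f : R →+* R') (x : σ → R)
    (p : MvPolynomial σ ℕ) : f (evN x p) = evN (fun i => f (x i)) p := by
  unfold evN
  rw [hom_eval₂]
  congr 1
  exact Subsingleton.elim _ _

/-- the exponent in the new coordinates -/
def nexp {n : ℕ} (B : Matrix (Fin n) (Fin n) ℤ) (κ : Fin n →₀ ℕ) (k : Fin n) : ℤ :=
  ∑ j, (κ j : ℤ) * B j k

/-- the shifted exponent -/
noncomputable def fexp {n : ℕ} (B : Matrix (Fin n) (Fin n) ℤ) (δ : Fin n → ℤ) (κ : Fin n →₀ ℕ) :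
    Fin n →₀ ℕ :=
  Finsupp.equivFunOnFinite.symm fun k => (nexp B κ k - δ k).toNat

/-- the transformed polynomial -/
noncomputable def Lpp {n : ℕ} (B : Matrix (Fin n) (Fin n) ℤ) (δ : Fin n → ℤ)
    (p : MvPolynomial (Fin n) ℕ) : MvPolynomial (Fin n) ℕ :=
  ∑ κ ∈ p.support, monomial (fexp B δ κ) (coeff κ p)

theorem evN_Lpp {n : ℕ} (B : Matrix (Fin n) (Fin n) ℤ) (δ : Fin n → ℤ)
    (p : MvPolynomial (Fin n) ℕ) {R : Type} [CommSemiring R] (z : Fin n → R) :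
    evN z (Lpp B δ p) = ∑ κ ∈ p.support, ((coeff κ p : ℕ) : R) * ∏ k, z k ^ (nexp B κ k - δ k).toNat := by
  unfold evN Lpp
  rw [eval₂_sum]
  refine Finset.sum_congr rfl fun κ _ => ?_
  rw [eval₂_monomial, Finsupp.prod_fintype _ _ (fun i => pow_zero _)]
  rfl

theorem evN_expand {n : ℕ} (p : MvPolynomial (Fin n) ℕ) {R : Type} [CommSemiring R]
    (z : Fin n → R) : evN z p = ∑ κ ∈ p.support, ((coeff κ p : ℕ) : R) * ∏ k, z k ^ κ k := by
  unfold evN
  rw [eval₂_eq']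
  rfl

/-- change of coordinates in monomials -/
theorem mono_change {n : ℕ} {K : Type} [Field K] (y : Fin n → K) (hy : ∀ j, y j ≠ 0)
    (A : Matrix (Fin n) (Fin n) ℤ) (c : Fin n → ℤ) :
    ∏ k, (∏ j, y j ^ A k j) ^ c k = ∏ j, y j ^ ∑ k, c k * A k j := by
  have h1 : ∀ k, (∏ j, y j ^ A k j) ^ c k = ∏ j, y j ^ (c k * A k j) := by
    intro k
    rw [prod_zpow']
    refine Finset.prod_congr rfl fun j _ => ?_
    rw [← zpow_mul, mul_comm]
  rw [Finset.prod_congr rfl fun k _ => h1 k, Finset.prod_comm]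
  exact Finset.prod_congr rfl fun j _ => prod_zpow_sum _ _ (hy j) _

theorem Lpp_eq {n : ℕ} {K : Type} [Field K] (y : Fin n → K) (hy : ∀ j, y j ≠ 0)
    (A B : Matrix (Fin n) (Fin n) ℤ) (hBA : B * A = 1) (δ : Fin n → ℤ)
    (p : MvPolynomial (Fin n) ℕ) (hδ : ∀ κ ∈ p.support, ∀ k, δ k ≤ nexp B κ k) :
    evN y p = (∏ j, y j ^ ∑ k, δ k * A k j) * evN (fun k => ∏ j, y j ^ A k j) (Lpp B δ p) := by
  rw [evN_Lpp, evN_expand, Finset.mul_sum]
  refine Finset.sum_congr rfl fun κ hκ => ?_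
  have h1 : ∏ k, (∏ j, y j ^ A k j) ^ (nexp B κ k - δ k).toNat =
      ∏ j, y j ^ ∑ k, (nexp B κ k - δ k) * A k j := by
    rw [← mono_change y hy A]
    refine Finset.prod_congr rfl fun k _ => ?_
    rw [← zpow_natCast, Int.toNat_of_nonneg (sub_nonneg.mpr (hδ κ hκ k))]
  rw [h1, mul_left_comm, ← Finset.prod_mul_distrib]
  congr 1
  refine Finset.prod_congr rfl fun j _ => ?_
  rw [← zpow_add₀ (hy j), ← Finset.sum_add_distrib, ← zpow_natCast]
  congr 1
  have h2 : ∑ k, (δ k * A k j + (nexp B κ k - δ k) * A k j) = ∑ k, nexp B κ k * A k j :=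
    Finset.sum_congr rfl fun k _ => by ring
  rw [h2]
  have h3 : ∑ k, nexp B κ k * A k j = ∑ i, (κ i : ℤ) * (B * A) i j := by
    simp only [nexp, Matrix.mul_apply, Finset.sum_mul, Finset.mul_sum]
    rw [Finset.sum_comm]
    refine Finset.sum_congr rfl fun i _ => Finset.sum_congr rfl fun k _ => by ring
  rw [h3, hBA]
  simp [Matrix.one_apply]

/-- comparison of orders at `s = 0` -/
theorem ord_cmp {K : Type} [Field K] (a b : ℤ) (p q : Polynomial K)
    (h : sVar K ^ a * algebraMap (Polynomial K) (RatFunc K) p =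
      sVar K ^ b * algebraMap (Polynomial K) (RatFunc K) q) (hp : p.coeff 0 ≠ 0) : b ≤ a := by
  by_contra hlt
  obtain ⟨n, hn⟩ := Int.eq_ofNat_of_zero_le (show 0 ≤ b - a by omega)
  have hs : sVar K ≠ 0 := RatFunc.X_ne_zero
  have hb : b = a + n := by omega
  rw [hb, zpow_add₀ hs, mul_assoc] at h
  have h1 := mul_left_cancel₀ (zpow_ne_zero a hs) h
  have h2 : p = Polynomial.X ^ n * q := by
    apply RatFunc.algebraMap_injective K
    rw [h1, map_mul, map_pow, RatFunc.algebraMap_X, zpow_natCast]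
  apply hp
  rw [h2, Polynomial.mul_coeff_zero, Polynomial.coeff_X_pow, if_neg (by omega), zero_mul]

theorem kres : KresStmt := by
  classical
  intro ι _ emb S S' hS hS' φ hφ d N N' b b' a a' hN hN' A Ψ Φ h w₀ w₁ e₀ hD
  -- the inverse matrix
  have hu : IsUnit A.det := by
    rcases hD.det with h | h <;> rw [h]
    · exact isUnit_one
    · exact isUnit_one.neg
  let B : Matrix (Fin (d + 1)) (Fin (d + 1)) ℤ := A⁻¹
  have hBA : B * A = 1 := Matrix.nonsing_inv_mul A hu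
  -- the exponents
  let T : Finset (Fin (d + 1) →₀ ℕ) := Finset.univ.biUnion fun i => (N.L i).support
  have hT : T.Nonempty := by
    obtain ⟨i, hi⟩ := N.ne
    obtain ⟨κ, hκ⟩ := support_nonempty.mpr hi
    exact ⟨κ, Finset.mem_biUnion.mpr ⟨i, Finset.mem_univ _, hκ⟩⟩
  have hδ' : ∀ k, ∃ δ : ℤ, (∀ κ ∈ T, δ ≤ nexp B κ k) ∧ ∃ κ ∈ T, nexp B κ k = δ := by
    intro k
    obtain ⟨κ, hκ, hm⟩ := Finset.exists_min_image T (fun κ => nexp B κ k) hT
    exact ⟨nexp B κ k, hm, κ, hκ, rfl⟩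
  choose δ hδ hδm using hδ'
  have hδi : ∀ i, ∀ κ ∈ (N.L i).support, ∀ k, δ k ≤ nexp B κ k := fun i κ hκ k =>
    hδ k κ (Finset.mem_biUnion.mpr ⟨i, Finset.mem_univ _, hκ⟩)
  let L'' : ι → MvPolynomial (Fin (d + 1)) ℕ := fun i => Lpp B δ (N.L i)
  let m : Fin (d + 1) → ℤ := fun j => ∑ k, δ k * A k j
  have hLF : ∀ i, N.LF i = (∏ j, yv (d + 1) j ^ m j) *
      evN (fun k => ∏ j, yv (d + 1) j ^ A k j) (L'' i) := fun i =>
    Lpp_eq (yv (d + 1)) yv_ne A B hBA δ (N.L i) (hδi i)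
  -- the value at the facet
  let z0 : Fin (d + 1) → Fd d := Fin.cons 0 (fun j => yv d j * h j)
  let ℓ : ι → Fd d := fun i => evN z0 (L'' i)
  have hyh : ∀ j, PosF (yv d j * h j) := fun j => pmul (pyv j) (hD.hpos j)
  -- an index with positive value
  obtain ⟨i₁, hi₁L, hi₁⟩ : ∃ i, N.L i ≠ 0 ∧ PosF (ℓ i) := by
    obtain ⟨κ, hκ, hκ0⟩ := hδm 0
    obtain ⟨i, _, hκi⟩ := Finset.mem_biUnion.mp hκ
    refine ⟨i, support_nonempty.mp ⟨κ, hκi⟩, ?_⟩
    show PosF (evN z0 (Lpp B δ (N.L i)))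
    rw [evN_Lpp]
    have hsplit : ∑ κ ∈ (N.L i).support, ((coeff κ (N.L i) : ℕ) : Fd d) *
        ∏ k, z0 k ^ (nexp B κ k - δ k).toNat =
        ∑ κ ∈ (N.L i).support.filter (fun κ => nexp B κ 0 = δ 0),
          ((coeff κ (N.L i) : ℕ) : Fd d) *
            ∏ k : Fin d, (yv d k * h k) ^ (nexp B κ k.succ - δ k.succ).toNat := by
      rw [Finset.sum_filter]
      refine Finset.sum_congr rfl fun κ hκ => ?_
      rw [Fin.prod_univ_succ]
      split_ifs with hc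
      · rw [hc, sub_self, Int.toNat_zero, pow_zero, one_mul]
        rfl
      · have h1 := hδi i κ hκ 0
        have h2 : (nexp B κ 0 - δ 0).toNat ≠ 0 := by
          intro h3
          rw [Int.toNat_eq_zero] at h3
          exact hc (by omega)
        have h4 : z0 0 = 0 := rfl
        rw [h4, zero_pow h2, zero_mul, mul_zero]
    rw [hsplit]
    apply psum
    · exact ⟨κ, Finset.mem_filter.mpr ⟨hκi, hκ0⟩⟩
    · intro κ hκ
      refine pmul (pnat (mem_support_iff.mp (Finset.mem_filter.mp hκ).1)) ?_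
      exact pprod _ _ fun k _ => ppow (hyh k) _
  -- the polynomials in `s`
  let Λ : ι → Polynomial S'.F := fun i =>
    evN (Fin.cons (Polynomial.X * Polynomial.C w₀) (fun k => Polynomial.C (Φ (yv d k * h k))))
      (L'' i)
  have hΛ0 : ∀ i, (Λ i).coeff 0 = Φ (ℓ i) := by
    intro i
    rw [Polynomial.coeff_zero_eq_eval_zero]
    have h1 := evN_map (Polynomial.evalRingHom (0 : S'.F))
      (Fin.cons (Polynomial.X * Polynomial.C w₀) (fun k => Polynomial.C (Φ (yv d k * h k))) :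
        Fin (d + 1) → Polynomial S'.F) (L'' i)
    have h2 := evN_map (Φ : Fd d →+* S'.F) z0 (L'' i)
    rw [Polynomial.coe_evalRingHom] at h1
    show Polynomial.eval 0 (evN _ (L'' i)) = (Φ : Fd d →+* S'.F) (evN z0 (L'' i))
    rw [h1, h2]
    congr 1
    funext k
    refine Fin.cases ?_ (fun k => ?_) k
    · show Polynomial.eval 0 (Polynomial.X * Polynomial.C w₀) = Φ 0
      simp
    · show Polynomial.eval 0 (Polynomial.C (Φ (yv d k * h k))) = Φ (yv d k * h k)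
      simp
  have hΨev : ∀ i, Ψ (evN (fun k => ∏ j, yv (d + 1) j ^ A k j) (L'' i)) =
      algebraMap (Polynomial S'.F) (RatFunc S'.F) (Λ i) := by
    intro i
    have h1 := evN_map (Ψ : Fd (d + 1) →+* RatFunc S'.F)
      (fun k => ∏ j, yv (d + 1) j ^ A k j) (L'' i)
    have h2 := evN_map (algebraMap (Polynomial S'.F) (RatFunc S'.F))
      (Fin.cons (Polynomial.X * Polynomial.C w₀) (fun k => Polynomial.C (Φ (yv d k * h k))) :
        Fin (d + 1) → Polynomial S'.F) (L'' i)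
    show (Ψ : Fd (d + 1) →+* RatFunc S'.F) _ = algebraMap (Polynomial S'.F) (RatFunc S'.F) (evN _ _)
    rw [h1, h2]
    congr 1
    funext k
    refine Fin.cases ?_ (fun k => ?_) k
    · show Ψ _ = algebraMap (Polynomial S'.F) (RatFunc S'.F) (Polynomial.X * Polynomial.C w₀)
      rw [hD.Ψ0, map_mul, RatFunc.algebraMap_X, RatFunc.algebraMap_C]
    · show Ψ _ = algebraMap (Polynomial S'.F) (RatFunc S'.F) (Polynomial.C (Φ (yv d k * h k)))
      rw [hD.Ψk, RatFunc.algebraMap_C]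
  let u₀ : S'.F := w₀ ^ δ 0 * ∏ k : Fin d, Φ (yv d k * h k) ^ δ k.succ
  have hΦne : ∀ k, Φ (yv d k * h k) ≠ 0 := fun k => (map_ne_zero Φ).mpr (pne (hyh k))
  have hu₀ : u₀ ≠ 0 := mul_ne_zero (zpow_ne_zero _ hD.hw₀)
    (Finset.prod_ne_zero_iff.mpr fun k _ => zpow_ne_zero _ (hΦne k))
  have hΨm : Ψ (∏ j, yv (d + 1) j ^ m j) = sVar S'.F ^ δ 0 * RatFunc.C u₀ := by
    have h1 : ∏ j, yv (d + 1) j ^ m j = ∏ k, (∏ j, yv (d + 1) j ^ A k j) ^ δ k :=
      (mono_change (yv (d + 1)) yv_ne A δ).symm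
    rw [h1, map_prod, Fin.prod_univ_succ, map_zpow₀, hD.Ψ0, mul_zpow, map_mul, map_prod,
      map_zpow₀, mul_assoc]
    congr 2
    refine Finset.prod_congr rfl fun k _ => ?_
    rw [map_zpow₀, hD.Ψk, map_zpow₀]
  clear_value u₀
  -- the comparison
  have hcmp : ∀ i, emb i ∈ S.M → ∃ R : Polynomial S'.F,
      sVar S'.F ^ φ.e * algebraMap (Polynomial S'.F) (RatFunc S'.F)
        (Polynomial.C φ.κ * (Polynomial.C (S'.P (emb i)) + Polynomial.X * R)) =
      sVar S'.F ^ (e₀ + δ 0) * algebraMap (Polynomial S'.F) (RatFunc S'.F)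
        (Polynomial.C (w₁ * u₀) * Λ i) := by
    intro i hi
    obtain ⟨R, hR⟩ := hφ.r2 (emb i) hi
    refine ⟨R, ?_⟩
    have h1 := hD.ΨP i
    rw [hLF i, map_mul, hΨm, hΨev, hR] at h1
    have hs : sVar S'.F ≠ 0 := RatFunc.X_ne_zero
    rw [map_mul, map_add, map_mul, map_mul, RatFunc.algebraMap_C, RatFunc.algebraMap_C,
      RatFunc.algebraMap_X, RatFunc.algebraMap_C, ← mul_assoc, h1, zpow_add₀ hs, map_mul]
    ring
  have hP0 : ∀ i, emb i ∉ S.M → N.L i = 0 := by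
    intro i hi
    obtain ⟨ν, hν⟩ := hN.eq
    by_contra hne
    have h1 : S.Δ (emb i) = 0 := by
      by_contra h2
      exact hi ((hS.wf.ne _).mp h2)
    have h2 : S.P (emb i) = 0 := by
      show S.ev S.x (emb i) = 0
      rw [FlatCell.ev, FlatCell.pol, h1]
      simp
    rw [hν i] at h2
    have hm : S.mono ν ≠ 0 := Finset.prod_ne_zero_iff.mpr fun v _ =>
      zpow_ne_zero _ (ABCT.xx_ne_zero v)
    have h3 : evN (fun j => S.mono (b j)) (N.L i) ≠ 0 :=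
      ABCT.PosF.ne_zero (ABCT.PosF.eval₂ _ (fun j =>
        ABCT.PosF.prod _ _ fun v _ => (ABCT.PosF.x v).zpow _) _ hne)
    exact mul_ne_zero hm h3 h2
  have hP'0 : ∀ i, S'.P (emb i) = 0 ↔ N'.L i = 0 := by
    intro i
    obtain ⟨ν, hν⟩ := hN'.eq
    rw [hν i]
    constructor
    · intro h2
      by_contra hne
      have hm : S'.mono ν ≠ 0 := Finset.prod_ne_zero_iff.mpr fun v _ =>
        zpow_ne_zero _ (ABCT.xx_ne_zero v)
      have h3 : evN (fun j => S'.mono (b' j)) (N'.L i) ≠ 0 :=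
        ABCT.PosF.ne_zero (ABCT.PosF.eval₂ _ (fun j =>
          ABCT.PosF.prod _ _ fun v _ => (ABCT.PosF.x v).zpow _) _ hne)
      exact mul_ne_zero hm h3 h2
    · intro h2
      rw [h2]
      simp [evN]
  have hM'0 : ∀ i, emb i ∉ S'.M → N'.L i = 0 := by
    intro i hi
    rw [← hP'0]
    have h1 : S'.Δ (emb i) = 0 := by
      by_contra h2
      exact hi ((hS'.wf.ne _).mp h2)
    show S'.ev S'.x (emb i) = 0
    rw [FlatCell.ev, FlatCell.pol, h1]
    simp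
  have hw1u : w₁ * u₀ ≠ 0 := mul_ne_zero hD.hw₁ hu₀
  have hκφ : φ.κ ≠ 0 := ABCT.PosF.ne_zero hφ.kpos
  -- equality of the orders
  have hcoefp : ∀ i (R : Polynomial S'.F),
      (Polynomial.C φ.κ * (Polynomial.C (S'.P (emb i)) + Polynomial.X * R)).coeff 0 =
        φ.κ * S'.P (emb i) := by
    intro i R
    simp [Polynomial.mul_coeff_zero]
  have hcoefq : ∀ i, (Polynomial.C (w₁ * u₀) * Λ i).coeff 0 = w₁ * u₀ * Φ (ℓ i) := by
    intro i
    rw [Polynomial.coeff_C_mul, hΛ0]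
  have hi₁M : emb i₁ ∈ S.M := by
    by_contra hc
    exact hi₁L (hP0 i₁ hc)
  have horder : φ.e = e₀ + δ 0 := by
    apply le_antisymm
    · obtain ⟨R, hR⟩ := hcmp i₁ hi₁M
      refine ord_cmp _ _ _ _ hR.symm ?_
      rw [hcoefq]
      exact mul_ne_zero hw1u ((map_ne_zero Φ).mpr (pne hi₁))
    · obtain ⟨i₀, hi₀⟩ := N'.ne
      have hi₀M : emb i₀ ∈ S'.M := by
        by_contra hc
        exact hi₀ (hM'0 i₀ hc)
      obtain ⟨R, hR⟩ := hcmp i₀ (hφ.sub.1 hi₀M)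
      refine ord_cmp _ _ _ _ hR ?_
      rw [hcoefp]
      exact mul_ne_zero hκφ (fun h => hi₀ ((hP'0 i₀).mp h))
  have hval : ∀ i, φ.κ * S'.P (emb i) = w₁ * u₀ * Φ (ℓ i) := by
    intro i
    by_cases hi : emb i ∈ S.M
    · obtain ⟨R, hR⟩ := hcmp i hi
      rw [horder] at hR
      have h1 := mul_left_cancel₀ (zpow_ne_zero _ RatFunc.X_ne_zero) hR
      have h2 := RatFunc.algebraMap_injective S'.F h1
      rw [← hcoefp i R, ← hcoefq i, h2]
    · have h1 := hP0 i hi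
      have h2 : N'.L i = 0 := hM'0 i (fun hc => hi (hφ.sub.1 hc))
      rw [(hP'0 i).mpr h2]
      have h3 : ℓ i = 0 := by
        show evN z0 (Lpp B δ (N.L i)) = 0
        rw [h1, evN_Lpp]
        simp
      rw [h3, map_zero, mul_zero, mul_zero]
  obtain ⟨ν', hν'⟩ := hN'.eq
  have hm' : S'.mono ν' ≠ 0 := Finset.prod_ne_zero_iff.mpr fun v _ =>
    zpow_ne_zero _ (ABCT.xx_ne_zero v)
  have hΦLF : ∀ i, Φ (N'.LF i) = evN (fun j => S'.mono (b' j)) (N'.L i) := by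
    intro i
    have h1 := evN_map (Φ : Fd d →+* S'.F) (yv d) (N'.L i)
    show (Φ : Fd d →+* S'.F) (evN (yv d) (N'.L i)) = _
    rw [h1]
    congr 1
    funext j
    exact hD.Φy j
  let c : S'.F := φ.κ * S'.mono ν' / (w₁ * u₀)
  have hc : ∀ i, Φ (ℓ i) = c * Φ (N'.LF i) := by
    intro i
    have h1 := hval i
    rw [hν' i, ← hΦLF] at h1
    show _ = φ.κ * S'.mono ν' / (w₁ * u₀) * _
    rw [eq_comm, div_mul_eq_mul_div, div_eq_iff hw1u]
    linear_combination h1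
  have hLF1 : N'.L i₁ ≠ 0 := by
    intro h0
    have h1 := hc i₁
    have h2 : N'.LF i₁ = 0 := by
      show evN (yv d) (N'.L i₁) = 0
      rw [h0]; simp [evN]
    rw [h2, map_zero, mul_zero] at h1
    exact (map_ne_zero Φ).mpr (pne hi₁) h1
  have hLFp : PosF (N'.LF i₁) := pev hLF1
  refine ⟨L'', m, ℓ i₁ / N'.LF i₁, pdiv hi₁ hLFp, hLF, ?_⟩
  intro i
  apply Φ.injective
  show Φ (ℓ i) = Φ (ℓ i₁ / N'.LF i₁ * N'.LF i)
  rw [map_mul, map_div₀, hc i, hc i₁]
  have h5 : Φ (N'.LF i₁) ≠ 0 := (map_ne_zero Φ).mpr (pne hLFp)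
  field_simp

end PosGeom.H9
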