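import Pool.Agent.Helper93_ABCT.StmtK
import Pool.Agent.Helper32_ABCT.Stmts2

/-! # WDIM: the dimension of the ABCT variety (MP_a17fcb_ag) -/

open MvPolynomial ABCT

namespace PosGeom.H9

/-- index set of the coordinates -/
abbrev WI (L : List ℕ) : Type := {x // x ∈ L.toFinset} ⊕ Fin (L.length - 2)

/-- inclusion in the variables -/
def wi (L : List ℕ) (r : ℕ) : WI L → (Net.gen L r).flat.V
  | Sum.inl i => Sum.inl i.1
  | Sum.inr h => Sum.inr h

theorem wi_inj (L : List ℕ) (r : ℕ) : Function.Injective (wi L r) := by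
  rintro (a | a) (b | b) h
  · exact congrArg Sum.inl (Subtype.ext (Sum.inl_injective h))
  · exact absurd h (by simp [wi])
  · exact absurd h (by simp [wi])
  · exact congrArg Sum.inr (Sum.inr_injective h)

/-- extension by zero -/
noncomputable def EE (L : List ℕ) (r : ℕ) : (WI L → ℤ) →ₗ[ℤ] ((Net.gen L r).flat.V →₀ ℤ) :=
  (Finsupp.lmapDomain ℤ ℤ (wi L r)).comp (Finsupp.linearEquivFunOnFinite ℤ ℤ (WI L)).symm.toLinearMap

theorem EE_apply (L : List ℕ) (r : ℕ) (g : WI L → ℤ) (w : WI L) : EE L r g (wi L r w) = g w := by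
  show Finsupp.mapDomain (wi L r) _ (wi L r w) = _
  rw [Finsupp.mapDomain_apply (wi_inj L r)]
  rfl

theorem EE_zero (L : List ℕ) (r : ℕ) (g : WI L → ℤ) (v : (Net.gen L r).flat.V)
    (hv : ∀ w, wi L r w ≠ v) : EE L r g v = 0 := by
  show Finsupp.mapDomain (wi L r) _ v = _
  apply Finsupp.mapDomain_of_notMem_range
  rintro ⟨w, hw⟩
  exact hv w hw

theorem EE_inj (L : List ℕ) (r : ℕ) : Function.Injective (EE L r) := by
  intro g g' h
  funext w
  rw [← EE_apply L r g w, ← EE_apply L r g' w, h]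

/-- the two equations -/
noncomputable def ff (l : List ℕ) (ρ r : ℕ) : (WI (l ++ [ρ]) → ℤ) →ₗ[ℤ] ℤ × ℤ where
  toFun g := (∑ i, g (Sum.inl i), (∑ h, g (Sum.inr h)) + (r - 1 : ℤ) * g (Sum.inl ⟨ρ, by simp⟩))
  map_add' g g' := by
    ext
    · simp [Finset.sum_add_distrib]
    · simp [Finset.sum_add_distrib]; ring
  map_smul' c g := by
    ext
    · simp [Finset.mul_sum]
    · simp [Finset.mul_sum, mul_add]; ring

theorem lam_eq (hL : LgenStmt) (l : List ℕ) (ρ r : ℕ) (hv : (Net.gen (l ++ [ρ]) r).Valid) :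
    AddSubgroup.toIntSubmodule (Net.gen (l ++ [ρ]) r).flat.Lam =
      (LinearMap.ker (ff l ρ r)).map (EE (l ++ [ρ]) r) := by
  ext m
  rw [show m ∈ AddSubgroup.toIntSubmodule (Net.gen (l ++ [ρ]) r).flat.Lam ↔
    m ∈ (Net.gen (l ++ [ρ]) r).flat.Lam from Iff.rfl, hL l ρ r hv m, Submodule.mem_map]
  constructor
  · rintro ⟨h1, h2, h3⟩
    refine ⟨fun w => m (wi (l ++ [ρ]) r w), ?_, ?_⟩
    · rw [LinearMap.mem_ker]
      ext
      · show ∑ i : {x // x ∈ (l ++ [ρ]).toFinset}, m (Sum.inl i.1) = 0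
        rw [Finset.sum_coe_sort (l ++ [ρ]).toFinset (fun i => m (Sum.inl i))]
        exact h2
      · exact h3
    · ext v
      by_cases hw : ∃ w, wi (l ++ [ρ]) r w = v
      · obtain ⟨w, rfl⟩ := hw
        rw [EE_apply]
      · push Not at hw
        rw [EE_zero _ _ _ _ hw]
        rcases v with i | h
        · rw [h1 i]
          intro hi
          exact hw (Sum.inl ⟨i, by rw [List.mem_toFinset]; exact hi⟩) rfl
        · exact absurd rfl (hw (Sum.inr h))
  · rintro ⟨g, hg, rfl⟩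
    rw [LinearMap.mem_ker] at hg
    have hg1 := congrArg Prod.fst hg
    have hg2 := congrArg Prod.snd hg
    refine ⟨?_, ?_, ?_⟩
    · intro i hi
      apply EE_zero
      rintro (w | w) hw
      · have := Sum.inl_injective hw
        rw [← this] at hi
        exact hi (List.mem_toFinset.mp w.2)
      · exact absurd hw (by simp [wi])
    · rw [← Finset.sum_coe_sort (l ++ [ρ]).toFinset]
      have : ∀ i : {x // x ∈ (l ++ [ρ]).toFinset}, EE (l ++ [ρ]) r g (Sum.inl i.1) =
        g (Sum.inl i) := fun i => EE_apply _ r g (Sum.inl i)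
      rw [Finset.sum_congr rfl fun i _ => this i]
      exact hg1
    · have h1 : ∀ h, EE (l ++ [ρ]) r g (Sum.inr h) = g (Sum.inr h) :=
        fun h => EE_apply _ r g (Sum.inr h)
      have h2 : EE (l ++ [ρ]) r g (Sum.inl ρ) = g (Sum.inl ⟨ρ, by simp⟩) :=
        EE_apply _ r g (Sum.inl ⟨ρ, by simp⟩)
      rw [Finset.sum_congr rfl fun i _ => h1 i, h2]
      exact hg2

theorem ff_surj (l : List ℕ) (ρ r : ℕ) (hv : (Net.gen (l ++ [ρ]) r).Valid) :
    Function.Surjective (ff l ρ r) := by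
  classical
  obtain ⟨hnd, h2, h3⟩ := hv
  have hlen : 4 ≤ (l ++ [ρ]).length := by omega
  have hl0 : 3 ≤ l.length := by simpa using hlen
  have hx : l.getD 0 0 ∈ l := by
    rw [List.getD_eq_getElem l 0 (by omega)]
    exact List.getElem_mem _
  have hxρ : l.getD 0 0 ≠ ρ := by
    intro h
    rw [List.nodup_append] at hnd
    exact hnd.2.2 _ hx ρ (by simp) h
  rintro ⟨a, b⟩
  let x0 : {x // x ∈ (l ++ [ρ]).toFinset} := ⟨l.getD 0 0, by
    rw [List.mem_toFinset, List.mem_append]; exact Or.inl hx⟩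
  let h0 : Fin ((l ++ [ρ]).length - 2) := ⟨0, by omega⟩
  refine ⟨Pi.single (Sum.inl x0) a + Pi.single (Sum.inr h0) b, ?_⟩
  have hne : (Sum.inl ⟨ρ, by simp⟩ : WI (l ++ [ρ])) ≠ Sum.inl x0 := by
    intro h
    exact hxρ (congrArg Subtype.val (Sum.inl_injective h)).symm
  ext
  · show ∑ i, (Pi.single (Sum.inl x0) a + Pi.single (Sum.inr h0) b : WI (l ++ [ρ]) → ℤ) (Sum.inl i) = a
    rw [Finset.sum_eq_single x0]
    · simp
    · intro i _ hi
      have : (Sum.inl i : WI (l ++ [ρ])) ≠ Sum.inl x0 := fun h => hi (Sum.inl_injective h)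
      simp [hi]
    · intro h; exact absurd (Finset.mem_univ _) h
  · show (∑ h, (Pi.single (Sum.inl x0) a + Pi.single (Sum.inr h0) b : WI (l ++ [ρ]) → ℤ) (Sum.inr h)) +
      (r - 1 : ℤ) * (Pi.single (Sum.inl x0) a + Pi.single (Sum.inr h0) b : WI (l ++ [ρ]) → ℤ)
        (Sum.inl ⟨ρ, by simp⟩) = b
    rw [Finset.sum_eq_single h0]
    · rw [Pi.add_apply, Pi.add_apply, Pi.single_eq_of_ne hne]
      simp
    · intro i _ hi
      simp [hi]
    · intro h; exact absurd (Finset.mem_univ _) h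

theorem finrank_rk {A B : Type} [AddCommGroup A] [AddCommGroup B] [Module.Finite ℤ A]
    [Module.Finite ℤ B] (f : A →ₗ[ℤ] B) :
    Module.finrank ℤ (LinearMap.range f) + Module.finrank ℤ (LinearMap.ker f) =
      Module.finrank ℤ A := by
  rw [← f.quotKerEquivRange.finrank_eq]
  exact Submodule.finrank_quotient_add_finrank _

theorem dim_gen {ι : Type} [Fintype ι] (hL : LgenStmt) (L l : List ℕ) (ρ r : ℕ)
    (hl : L = l ++ [ρ]) (hv : (Net.gen L r).Valid) (emb : ι → Finset ℕ) (d : ℕ) (N : NCell ι d)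
    (b : Fin d → ((Net.gen L r).flat.V →₀ ℤ)) (a : ℕ)
    (hN : IsNormal emb (Net.gen L r).flat N b a) : d + 4 = 2 * L.length := by
  classical
  subst hl
  have hlam := lam_eq hL l ρ r hv
  -- the rank from the basis
  have h1 : Module.finrank ℤ (AddSubgroup.toIntSubmodule (Net.gen (l ++ [ρ]) r).flat.Lam) = d := by
    have hspan : AddSubgroup.toIntSubmodule (Net.gen (l ++ [ρ]) r).flat.Lam =
        Submodule.span ℤ (Set.range b) := by
      apply le_antisymm
      · intro m hm
        have h0 : m ∈ AddSubgroup.closure (Set.range b) := hN.span hm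
        have h00 : m ∈ AddSubgroup.toIntSubmodule (AddSubgroup.closure (Set.range b)) := h0
        rw [AddSubgroup.toIntSubmodule_closure] at h00
        exact h00
      · rw [Submodule.span_le]
        rintro _ ⟨j, rfl⟩
        exact hN.mem j
    rw [hspan, finrank_span_eq_card hN.ind, Fintype.card_fin]
  have h2 : Module.finrank ℤ (AddSubgroup.toIntSubmodule (Net.gen (l ++ [ρ]) r).flat.Lam) =
      Module.finrank ℤ (LinearMap.ker (ff l ρ r)) := by
    rw [hlam]
    exact (Submodule.equivMapOfInjective (EE (l ++ [ρ]) r) (EE_inj _ r)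
      (LinearMap.ker (ff l ρ r))).finrank_eq.symm
  have h3 := finrank_rk (ff l ρ r)
  rw [LinearMap.range_eq_top.mpr (ff_surj l ρ r hv), finrank_top, ← h2, h1] at h3
  have h4 : Module.finrank ℤ (ℤ × ℤ) = 2 := by simp
  rw [h4, Module.finrank_fintype_fun_eq_card] at h3
  have h5 : Fintype.card (WI (l ++ [ρ])) = (l ++ [ρ]).length + ((l ++ [ρ]).length - 2) := by
    rw [Fintype.card_sum, Fintype.card_coe, Fintype.card_fin,
      List.toFinset_card_of_nodup hv.1]
  rw [h5] at h3
  have h6 : 4 ≤ (l ++ [ρ]).length := by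
    obtain ⟨_, h, h'⟩ := hv
    omega
  omega

theorem wdim (hL : LgenStmt) : WdimStmt := by
  intro k n hk hkn d N b a hN
  have hr : List.range n = List.range (n - 1) ++ [n - 1] := by
    obtain ⟨m, rfl⟩ : ∃ m, n = m + 1 := ⟨n - 1, by omega⟩
    rw [Nat.add_sub_cancel]
    exact List.range_succ
  have := dim_gen hL (List.range n) _ _ k hr ⟨List.nodup_range, hk, by simpa using hkn⟩
    (emb0 k n) d N b a hN
  rw [List.length_range] at this
  omega

end PosGeom.H9
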