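import Pool.Agent.Helper32_ABCT.EStmts

/-! # ORD: rules for orders at `s = 0` (MP_a17fcb_ag) -/

open MvPolynomial

namespace ABCT.H9

open FlatCell

variable {K : Type*} [Field K]

theorem sVar_ne : sVar K ≠ 0 := RatFunc.X_ne_zero

theorem am_ne {B : Polynomial K} (h : B.coeff 0 ≠ 0) :
    algebraMap (Polynomial K) (RatFunc K) B ≠ 0 := by
  intro h0
  have : B = 0 := (map_eq_zero_iff _ (RatFunc.algebraMap_injective K)).mp h0
  rw [this] at h
  simp at h

theorem ord_add {f g : RatFunc K} {n : ℤ} (hf : OrdGe f n) (hg : OrdGe g n) :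
    OrdGe (f + g) n := by
  obtain ⟨A, B, hB, rfl⟩ := hf
  obtain ⟨A', B', hB', rfl⟩ := hg
  refine ⟨A * B' + A' * B, B * B', ?_, ?_⟩
  · rw [Polynomial.mul_coeff_zero]; exact mul_ne_zero hB hB'
  · have h1 := am_ne hB
    have h2 := am_ne hB'
    rw [map_add, map_mul, map_mul, map_mul]
    field_simp

theorem ord_mul {f g : RatFunc K} {m n : ℤ} (hf : OrdGe f m) (hg : OrdGe g n) :
    OrdGe (f * g) (m + n) := by
  obtain ⟨A, B, hB, rfl⟩ := hf
  obtain ⟨A', B', hB', rfl⟩ := hg
  refine ⟨A * A', B * B', ?_, ?_⟩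
  · rw [Polynomial.mul_coeff_zero]; exact mul_ne_zero hB hB'
  · rw [map_mul, map_mul, zpow_add₀ sVar_ne, mul_div_mul_comm]
    ring

theorem ord_pow (m : ℕ) : OrdGe (sVar K ^ m) m := by
  refine ⟨1, 1, by simp, by simp⟩

theorem ord_zpow (m : ℤ) : OrdGe (sVar K ^ m) m := by
  refine ⟨1, 1, by simp, by simp⟩

theorem ord_poly (A : Polynomial K) : OrdGe (algebraMap (Polynomial K) (RatFunc K) A) 0 :=
  ⟨A, 1, by simp, by simp⟩

theorem ord_mono {f : RatFunc K} {m n : ℤ} (h : m ≤ n) (hf : OrdGe f n) : OrdGe f m := by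
  obtain ⟨A, B, hB, rfl⟩ := hf
  obtain ⟨k, hk⟩ := Int.eq_ofNat_of_zero_le (sub_nonneg.mpr h)
  refine ⟨A * Polynomial.X ^ k, B, hB, ?_⟩
  have : n = m + k := by omega
  rw [this, zpow_add₀ sVar_ne, map_mul, map_pow, RatFunc.algebraMap_X, zpow_natCast]
  ring

theorem ord_C (a : K) : OrdGe (RatFunc.C a) 0 := by
  rw [← RatFunc.algebraMap_C]; exact ord_poly _

/-- `X ^ n ∣ N * B`, `B(0) ≠ 0` gives `X ^ n ∣ N` -/
theorem dvd_of_dvd_mul {N B : Polynomial K} (hB : B.coeff 0 ≠ 0) {n : ℕ}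
    (h : Polynomial.X ^ n ∣ N * B) : Polynomial.X ^ n ∣ N := by
  have hc : IsCoprime (Polynomial.X ^ n) B := by
    apply IsCoprime.pow_left
    rw [Polynomial.irreducible_X.coprime_iff_not_dvd, Polynomial.X_dvd_iff]
    exact hB
  exact hc.dvd_of_dvd_mul_right h

theorem ord_all {f : RatFunc K} (h : ∀ n, OrdGe f n) : f = 0 := by
  have hN : f.num = 0 := by
    have key : ∀ n : ℕ, Polynomial.X ^ n ∣ f.num := by
      intro n
      obtain ⟨A, B, hB, hf⟩ := h n
      apply dvd_of_dvd_mul hB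
      refine ⟨A * f.denom, ?_⟩
      apply RatFunc.algebraMap_injective K
      have h1 := am_ne hB
      have h2 : algebraMap (Polynomial K) (RatFunc K) f.denom ≠ 0 := by
        intro h0
        exact f.denom_ne_zero ((map_eq_zero_iff _ (RatFunc.algebraMap_injective K)).mp h0)
      rw [← RatFunc.num_div_denom f] at hf
      rw [zpow_natCast, div_eq_iff h2] at hf
      rw [map_mul, map_mul, map_mul, map_pow, RatFunc.algebraMap_X, hf]
      field_simp
    by_contra hne
    have hd := Polynomial.natDegree_le_of_dvd (key (f.num.natDegree + 1)) hne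
    rw [Polynomial.natDegree_X_pow] at hd
    omega
  exact RatFunc.num_eq_zero_iff.mp hN

theorem ord_unit_iff {A : Polynomial K} (hA : A.coeff 0 ≠ 0) (n : ℤ) :
    OrdGe (algebraMap (Polynomial K) (RatFunc K) A) n ↔ n ≤ 0 := by
  constructor
  · rintro ⟨A', B, hB, h⟩
    by_contra hn
    obtain ⟨k, hk⟩ := Int.eq_ofNat_of_zero_le (show 0 ≤ n by omega)
    have hk0 : k ≠ 0 := by
      rintro rfl
      simp at hk
      omega
    subst hk
    have h1 := am_ne hB
    have h2 : A * B = Polynomial.X ^ k * A' := by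
      apply RatFunc.algebraMap_injective K
      rw [map_mul, map_mul, map_pow, RatFunc.algebraMap_X, h]
      simp only [zpow_natCast]
      field_simp
    have h3 := congrArg (fun p => Polynomial.coeff p 0) h2
    simp only [Polynomial.mul_coeff_zero, Polynomial.coeff_X_pow] at h3
    rw [if_neg (fun h => hk0 h.symm), zero_mul] at h3
    exact mul_ne_zero hA hB h3
  · intro h
    exact ord_mono h (ord_poly A)

theorem ord_div_iff {A : Polynomial K} (hA : A.coeff 0 ≠ 0) (n : ℤ) (f : RatFunc K) :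
    OrdGe (f / algebraMap (Polynomial K) (RatFunc K) A) n ↔ OrdGe f n := by
  constructor
  · intro h
    have h1 := ord_mul h (ord_poly A)
    rwa [div_mul_cancel₀ _ (am_ne hA), add_zero] at h1
  · intro h
    have h1 : OrdGe (1 / algebraMap (Polynomial K) (RatFunc K) A) 0 := ⟨1, A, hA, by simp⟩
    have h2 := ord_mul h h1
    rwa [mul_one_div, add_zero] at h2

theorem ord_mapR {L : Type*} [Field L] (σ : K →+* L) {f : RatFunc K} {n : ℤ} (h : OrdGe f n) :
    OrdGe (mapR σ f) n := by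
  obtain ⟨A, B, hB, rfl⟩ := h
  refine ⟨A.map σ, B.map σ, ?_, ?_⟩
  · rw [Polynomial.coeff_map]
    exact (map_ne_zero σ).mpr hB
  · rw [map_mul, map_zpow₀, mapR_s, map_div₀, mapR_algebraMap, mapR_algebraMap]

theorem ord : OrdStmt :=
  ⟨fun _ _ _ _ _ hf hg => ord_add hf hg, fun _ _ _ _ _ _ hf hg => ord_mul hf hg,
    fun _ _ _ _ _ h hf => ord_mono h hf, fun _ _ a => ord_C a, fun _ _ m => ord_zpow m,
    fun _ _ _ h => ord_all h,
    fun _ _ _ n hA => ⟨ord_unit_iff hA n, fun f => ord_div_iff hA n f⟩,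
    fun _ _ _ _ σ _ _ h => ord_mapR σ h⟩

end ABCT.H9
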