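import Pool.Agent.Helper9_ABCT.Ord

/-! # ORDW: separation of label monomials (MP_a17fcb_ag) -/

open MvPolynomial

namespace ABCT.H9

open FlatCell

/-- the label monomial `x ^ v` -/
noncomputable def lm (S : FlatCell) (v : ℕ →₀ ℤ) : S.F :=
  v.prod fun i a => (xx (Sum.inl i) : S.F) ^ a

theorem lm_ne (S : FlatCell) (v : ℕ →₀ ℤ) : lm S v ≠ 0 :=
  Finset.prod_ne_zero_iff.mpr fun _ _ => zpow_ne_zero _ (xx_ne_zero _)

theorem scal_lm (S : FlatCell) (q : ℕ) (v : ℕ →₀ ℤ) :
    scal (two S q) (two_ne S q) (lm S v) = algebraMap ℂ S.F (2 ^ (v q)) * lm S v := by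
  classical
  rw [lm, Finsupp.prod, map_prod]
  have h1 : ∀ i ∈ v.support, scal (two S q) (two_ne S q) ((xx (Sum.inl i) : S.F) ^ v i) =
      (if i = q then algebraMap ℂ S.F (2 ^ (v q)) else 1) * (xx (Sum.inl i) : S.F) ^ v i := by
    intro i _
    rw [map_zpow₀, scal_x, mul_zpow]
    congr 1
    by_cases h : i = q
    · subst h
      simp [two]
    · simp [two, h]
  rw [Finset.prod_congr rfl h1, Finset.prod_mul_distrib]
  congr 1
  rw [Finset.prod_ite_eq' v.support q]
  split_ifs with h
  · rfl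
  · rw [Finsupp.notMem_support_iff.mp h]
    simp

theorem ordw_aux (S : FlatCell) (n : ℤ) (v0 : ℕ →₀ ℤ) : ∀ (N : ℕ) (V : Finset (ℕ →₀ ℤ)),
    V.card ≤ N → v0 ∈ V → ∀ (g : (ℕ →₀ ℤ) → RatFunc S.F),
    (∀ v ∈ V, ∀ (t : S.V → ℂ) (ht : ∀ u, t u ≠ 0), (∀ h, t (Sum.inr h) = 1) →
      mapR (scal t ht) (g v) = g v) →
    OrdGe (∑ v ∈ V, RatFunc.C (lm S v) * g v) n → OrdGe (g v0) n := by
  classical
  intro N
  induction N with
  | zero =>
    intro V hV hv0
    rw [Nat.le_zero, Finset.card_eq_zero] at hV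
    rw [hV] at hv0
    simp at hv0
  | succ N ih =>
    intro V hV hv0 g hg h
    by_cases hsing : ∃ w ∈ V, w ≠ v0
    · obtain ⟨w, hw, hne⟩ := hsing
      obtain ⟨q, hq⟩ : ∃ q, w q ≠ v0 q := by
        by_contra! hcon
        exact hne (Finsupp.ext hcon)
      have hcard : (V.erase w).card ≤ N := by
        rw [Finset.card_erase_of_mem hw]; omega
      have hmem : v0 ∈ V.erase w := Finset.mem_erase.mpr ⟨hne.symm, hv0⟩
      let c : (ℕ →₀ ℤ) → S.F := fun v => algebraMap ℂ S.F (2 ^ (v q) - 2 ^ (w q))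
      have h1 := ord_mapR (scal (two S q) (two_ne S q)) h
      have h2 : OrdGe (RatFunc.C (algebraMap ℂ S.F (-2 ^ (w q))) *
          ∑ v ∈ V, RatFunc.C (lm S v) * g v) n := by
        have := ord_mul (ord_C (algebraMap ℂ S.F (-2 ^ (w q)))) h
        rwa [zero_add] at this
      have h3 := ord_add h1 h2
      have h4 : mapR (scal (two S q) (two_ne S q)) (∑ v ∈ V, RatFunc.C (lm S v) * g v) +
          RatFunc.C (algebraMap ℂ S.F (-2 ^ (w q))) * ∑ v ∈ V, RatFunc.C (lm S v) * g v =
          ∑ v ∈ V.erase w, RatFunc.C (lm S v) * (RatFunc.C (c v) * g v) := by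
        rw [map_sum, Finset.mul_sum, ← Finset.sum_add_distrib, ← Finset.add_sum_erase V _ hw]
        have h5 : ∀ v ∈ V, mapR (scal (two S q) (two_ne S q)) (RatFunc.C (lm S v) * g v) +
            RatFunc.C (algebraMap ℂ S.F (-2 ^ (w q))) * (RatFunc.C (lm S v) * g v) =
            RatFunc.C (lm S v) * (RatFunc.C (c v) * g v) := by
          intro v hv
          rw [map_mul, mapR_C, scal_lm, hg v hv (two S q) (two_ne S q) (fun h => rfl)]
          simp only [c, map_mul, map_sub, map_neg]
          ring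
        rw [h5 w hw]
        have h6 : c w = 0 := by simp [c]
        rw [h6, map_zero, zero_mul, mul_zero, zero_add]
        exact Finset.sum_congr rfl fun v hv => h5 v (Finset.mem_of_mem_erase hv)
      rw [h4] at h3
      have h7 := ih (V.erase w) hcard hmem (fun v => RatFunc.C (c v) * g v) (by
        intro v hv t ht h
        rw [map_mul, mapR_C, hg v (Finset.mem_of_mem_erase hv) t ht h]
        simp only [c, scal_C]) h3
      have hc : c v0 ≠ 0 := by
        simp only [c]
        rw [Ne, map_eq_zero, sub_eq_zero]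
        intro h8
        apply hq
        have h9 : (2 : ℝ) ^ (v0 q) = (2 : ℝ) ^ (w q) := by
          apply Complex.ofReal_injective
          push_cast
          exact h8
        exact (zpow_right_injective₀ (by norm_num) (by norm_num) h9).symm
      have h10 := ord_mul (ord_C (c v0)⁻¹) h7
      rw [zero_add, ← mul_assoc, ← map_mul, inv_mul_cancel₀ hc, map_one, one_mul] at h10
      exact h10
    · push Not at hsing
      have hV1 : V = {v0} := by
        ext v
        rw [Finset.mem_singleton]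
        exact ⟨fun h => hsing v h, fun h => h ▸ hv0⟩
      rw [hV1, Finset.sum_singleton] at h
      have h10 := ord_mul (ord_C (lm S v0)⁻¹) h
      rw [zero_add, ← mul_assoc, ← map_mul, inv_mul_cancel₀ (lm_ne S v0), map_one, one_mul] at h10
      exact h10

theorem ordw (_h : OrdStmt) : OrdwStmt := by
  intro S V g n hg h v hv
  exact ordw_aux S n v V.card V le_rfl hv g hg h

end ABCT.H9
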